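import Pool.Agent.H37.IS.Stm

set_option autoImplicit false

namespace H37.IS

theorem BA4_proved : S_BA4 := by
  intro N j hj1 hjN hD
  have e1 : (j + 1) * N.choose (j + 1) = (N - j) * N.choose j := by
    have := Nat.choose_succ_right_eq N j
    rw [mul_comm] at this
    rw [this, mul_comm]
  have e2 : j * N.choose j = (N - j + 1) * N.choose (j - 1) := by
    have := Nat.choose_succ_right_eq N (j - 1)
    rw [show j - 1 + 1 = j by omega, show N - (j - 1) = N - j + 1 by omega] at this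
    rw [mul_comm, this, mul_comm]
  have e1' : ((j : ℤ) + 1) * (N.choose (j + 1) : ℤ) = ((N : ℤ) - j) * (N.choose j : ℤ) := by
    have := congrArg (Nat.cast : ℕ → ℤ) e1
    push_cast [Nat.cast_sub hjN] at this
    exact this
  have e2' : (j : ℤ) * (N.choose j : ℤ) = ((N : ℤ) - j + 1) * (N.choose (j - 1) : ℤ) := by
    have := congrArg (Nat.cast : ℕ → ℤ) e2
    push_cast [Nat.cast_sub hjN] at this
    exact this
  set x : ℤ := (N.choose j : ℤ) with hx
  set y : ℤ := (N.choose (j + 1) : ℤ) with hy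
  set z : ℤ := (N.choose (j - 1) : ℤ) with hz
  have hx0 : 0 ≤ x := by positivity
  have hj1' : (1 : ℤ) ≤ j := by exact_mod_cast hj1
  have hjN' : (j : ℤ) ≤ N := by exact_mod_cast hjN
  set n : ℤ := (N : ℤ) with hn
  set t : ℤ := (j : ℤ) with ht
  set P : ℤ := (t + 1) * (n - t + 1) with hP
  have hP0 : 0 < P := by
    rw [hP]
    apply mul_pos <;> linarith
  have k1 : P * y = (n - t) * (n - t + 1) * x := by
    rw [hP]
    calc (t + 1) * (n - t + 1) * y = (n - t + 1) * ((t + 1) * y) := by ring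
      _ = (n - t + 1) * ((n - t) * x) := by rw [e1']
      _ = _ := by ring
  have k2 : P * z = t * (t + 1) * x := by
    rw [hP]
    calc (t + 1) * (n - t + 1) * z = (t + 1) * ((n - t + 1) * z) := by ring
      _ = (t + 1) * (t * x) := by rw [← e2']
      _ = _ := by ring
  have k3 : 0 ≤ 2 * (n + 1) * (n + 2 - (n - 2 * t) ^ 2) - P := by
    have hD0 : 0 ≤ (n - 2 * t) ^ 2 := sq_nonneg _
    have h4P : 4 * P = (n + 2) ^ 2 - (n - 2 * t) ^ 2 := by rw [hP]; ring
    set D : ℤ := (n - 2 * t) ^ 2 with hDD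
    have hn0 : 0 ≤ n := by linarith
    nlinarith [mul_nonneg hn0 (by linarith : (0 : ℤ) ≤ n - 2 * D), mul_nonneg hn0 hn0]
  have k4 : P * (2 * (n + 1) * (2 * x) - (x + 2 * (n + 1) * (y + z))) =
      x * (2 * (n + 1) * (n + 2 - (n - 2 * t) ^ 2) - P) := by
    have : P * (2 * (n + 1) * (2 * x) - (x + 2 * (n + 1) * (y + z))) =
        P * (2 * (n + 1) * (2 * x)) - P * x - 2 * (n + 1) * (P * y + P * z) := by ring
    rw [this, k1, k2, hP]
    ring
  have k5 : 0 ≤ P * (2 * (n + 1) * (2 * x) - (x + 2 * (n + 1) * (y + z))) := by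
    rw [k4]
    exact mul_nonneg hx0 k3
  have k6 : 0 ≤ 2 * (n + 1) * (2 * x) - (x + 2 * (n + 1) * (y + z)) :=
    nonneg_of_mul_nonneg_right k5 hP0
  have k7 : x + 2 * (n + 1) * (y + z) ≤ 2 * (n + 1) * (2 * x) := by linarith
  rw [hx, hy, hz, hn] at k7
  exact_mod_cast k7

lemma num_aux {N c p : ℕ} (hp : 4 ≤ p) (hN : (9 * c + 12 * p) ^ 2 ≤ N) :
    48 * (9 * c + 12 * p) ≤ N := by
  have : 48 ≤ 9 * c + 12 * p := by omega
  calc 48 * (9 * c + 12 * p) ≤ (9 * c + 12 * p) * (9 * c + 12 * p) := Nat.mul_le_mul_right _ this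
    _ = (9 * c + 12 * p) ^ 2 := by ring
    _ ≤ N := hN

theorem SBD_proved (h2 : S_BA2) (h5 : S_BA5) : S_SBD := by
  intro N c k p a s j hp hNp hN hk1 hk2 ha haN hs hj
  have hnum := num_aux hp hN
  set A : ℕ := 5 * c + 6 * p with hA
  have hAN : A ≤ N := by omega
  have hkc : c + 2 ≤ k := by omega
  have h1 : (N - a).choose j ≤ (N - A).choose j := Nat.choose_le_choose j (by omega)
  have h3 : N ≤ 4 * j := by
    rcases hj with hj | hj <;> omega
  have h4 := h2 N A j hAN h3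
  have h6 : N.choose j ≤ 2 ^ (c + 1) * N.choose k := by
    have hle : 3 * k ≤ 2 * N + 2 := by omega
    by_cases hjk : j ≤ k
    · refine (h5.1 N k j hle hjk).trans ?_
      apply Nat.mul_le_mul_right
      apply Nat.pow_le_pow_right (by norm_num)
      rcases hj with hj | hj <;> omega
    · have hjk1 : j = k + 1 := by
        rcases hj with hj | hj <;> omega
      rw [hjk1]
      refine (h5.2 N k (by omega)).trans ?_
      apply Nat.mul_le_mul_right
      calc 2 = 2 ^ 1 := by norm_num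
        _ ≤ 2 ^ (c + 1) := Nat.pow_le_pow_right (by norm_num) (by omega)
  have h7 : 3 ^ A * (2 ^ c * 8 * (N + 1) * 2 ^ (c + 1)) ≤ 4 ^ A := by
    have a1 : 3 ^ (5 * c) * (2 ^ c * 2 ^ c) ≤ 4 ^ (5 * c) := by
      calc 3 ^ (5 * c) * (2 ^ c * 2 ^ c) = (3 ^ 5 * 4) ^ c := by
            rw [mul_pow, pow_mul, ← mul_pow]
            norm_num
        _ ≤ (4 ^ 5) ^ c := Nat.pow_le_pow_left (by norm_num) c
        _ = 4 ^ (5 * c) := by rw [pow_mul]
    have a2 : 3 ^ (6 * p) * (2 ^ p * 2 ^ p) ≤ 4 ^ (6 * p) := by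
      calc 3 ^ (6 * p) * (2 ^ p * 2 ^ p) = (3 ^ 6 * 4) ^ p := by
            rw [mul_pow, pow_mul, ← mul_pow]
            norm_num
        _ ≤ (4 ^ 6) ^ p := Nat.pow_le_pow_left (by norm_num) p
        _ = 4 ^ (6 * p) := by rw [pow_mul]
    have a3 : 16 ≤ 2 ^ p := by
      calc 16 = 2 ^ 4 := by norm_num
        _ ≤ 2 ^ p := Nat.pow_le_pow_right (by norm_num) hp
    have a4 : 16 * (N + 1) ≤ 2 ^ p * 2 ^ p := Nat.mul_le_mul a3 (by omega)
    calc 3 ^ A * (2 ^ c * 8 * (N + 1) * 2 ^ (c + 1))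
        = (3 ^ (5 * c) * (2 ^ c * 2 ^ c)) * (3 ^ (6 * p) * (16 * (N + 1))) := by
          rw [hA, pow_add]; ring
      _ ≤ 4 ^ (5 * c) * (3 ^ (6 * p) * (2 ^ p * 2 ^ p)) :=
          Nat.mul_le_mul a1 (Nat.mul_le_mul_left _ a4)
      _ ≤ 4 ^ (5 * c) * 4 ^ (6 * p) := Nat.mul_le_mul_left _ a2
      _ = 4 ^ A := by rw [hA, pow_add]
  have h8 : 4 ^ A * (2 ^ c * 8 * (N + 1) * (N - a).choose j) ≤ 4 ^ A * N.choose k := by
    calc 4 ^ A * (2 ^ c * 8 * (N + 1) * (N - a).choose j)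
        ≤ 4 ^ A * (2 ^ c * 8 * (N + 1) * (N - A).choose j) := by gcongr
      _ = (2 ^ c * 8 * (N + 1)) * (4 ^ A * (N - A).choose j) := by ring
      _ ≤ (2 ^ c * 8 * (N + 1)) * (3 ^ A * N.choose j) := by gcongr
      _ ≤ (2 ^ c * 8 * (N + 1)) * (3 ^ A * (2 ^ (c + 1) * N.choose k)) := by gcongr
      _ = (3 ^ A * (2 ^ c * 8 * (N + 1) * 2 ^ (c + 1))) * N.choose k := by ring
      _ ≤ 4 ^ A * N.choose k := by gcongr
  exact Nat.le_of_mul_le_mul_left h8 (by positivity)

lemma card_le {ι : Type} {F : Finset ι} {N c : ℕ} {a s : ι → ℕ} {i0 : ι}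
    (hF : Fam F N c a s i0) : F.card ≤ 2 ^ c := by
  classical
  have h1 : ∀ i ∈ F, s i ∈ Finset.range (c + 1) := fun i hi =>
    Finset.mem_range.2 (Nat.lt_succ_of_le (hF.hs i hi))
  rw [Finset.card_eq_sum_card_fiberwise h1, ← Nat.sum_range_choose c]
  exact Finset.sum_le_sum fun j _ => hF.hcount j

theorem SWI_proved (h3 : S_BA3) (h4 : S_BA4) (hB : S_SBD) : S_SWI := by
  classical
  intro ι F N c a s i0 hF k p hp hNp hN hk1 hk2
  have hnum := num_aux hp hN
  have hkc : c + 2 ≤ k := by omega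
  have hkN : k ≤ N := by omega
  have hcard := card_le hF
  have hch : ∀ i ∈ F, ch (N - a i) k (s i) = (N - a i).choose (k - s i) ∧
      ch (N - a i) (k + 1) (s i) = (N - a i).choose (k - s i + 1) ∧
      ch (N - a i) (k - 1) (s i) = (N - a i).choose (k - s i - 1) := by
    intro i hi
    have := hF.hs i hi
    unfold ch
    refine ⟨?_, ?_, ?_⟩
    · rw [if_pos (by omega)]
    · rw [if_pos (by omega), show k + 1 - s i = k - s i + 1 by omega]
    · rw [if_pos (by omega), show k - 1 - s i = k - s i - 1 by omega]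
  set C : ℕ := N.choose k with hC
  set K : ℤ := (2 : ℤ) ^ c * 8 * ((N : ℤ) + 1) with hK
  have hK0 : 0 < K := by positivity
  have hmain : ∀ i ∈ F, K * ((ch (N - a i) (k + 1) (s i) : ℤ) + (ch (N - a i) (k - 1) (s i) : ℤ)) ≤
      K * (2 * (ch (N - a i) k (s i) : ℤ)) + (2 * (C : ℤ) +
        (if i = i0 then -(4 * (2 : ℤ) ^ c * (C : ℤ)) else 0)) := by
    intro i hi
    obtain ⟨c1, c2, c3⟩ := hch i hi
    have hsi := hF.hs i hi
    have hai := hF.ha i hi
    rw [c1, c2, c3]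
    by_cases hi0 : i = i0
    · rw [if_pos hi0, hi0, hF.ha0, hF.hs0, Nat.sub_zero, Nat.sub_zero]
      have hD : 2 * ((N : ℤ) - 2 * k) ^ 2 ≤ (N : ℤ) := by
        have q1 : ((N : ℤ) - 2 * k) ≤ c + 3 * p + 1 := by
          have : (N : ℤ) ≤ 2 * k + c + 3 * p + 1 := by exact_mod_cast hk1
          linarith
        have q2 : -(2 * (c : ℤ)) ≤ ((N : ℤ) - 2 * k) := by
          have : (2 * k : ℤ) ≤ N + 2 * c := by exact_mod_cast hk2
          linarith
        have q3 : ((9 * c + 12 * p : ℤ)) ^ 2 ≤ N := by exact_mod_cast hN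
        have hp' : (4 : ℤ) ≤ p := by exact_mod_cast hp
        have hc' : (0 : ℤ) ≤ c := by positivity
        have q4 : ((N : ℤ) - 2 * k) ^ 2 ≤ (2 * c + 3 * p + 1) ^ 2 := by
          apply sq_le_sq'
          · linarith
          · linarith
        nlinarith [mul_nonneg hc' (by linarith : (0 : ℤ) ≤ p)]
      have := h4 N k (by omega) hkN hD
      have h' : (C : ℤ) + 2 * (N + 1) * ((N.choose (k + 1) : ℤ) + (N.choose (k - 1) : ℤ)) ≤
          2 * (N + 1) * (2 * (C : ℤ)) := by exact_mod_cast this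
      have h2c : (0 : ℤ) < 2 ^ c := by positivity
      have h'' := mul_le_mul_of_nonneg_left h' (by positivity : (0 : ℤ) ≤ 4 * 2 ^ c)
      have hC0 : (0 : ℤ) ≤ C := by positivity
      have e1 : 4 * (2 : ℤ) ^ c * ((C : ℤ) + 2 * (N + 1) * ((N.choose (k + 1) : ℤ) +
          (N.choose (k - 1) : ℤ))) = 4 * (2 : ℤ) ^ c * (C : ℤ) +
          K * ((N.choose (k + 1) : ℤ) + (N.choose (k - 1) : ℤ)) := by rw [hK]; ring
      have e2 : 4 * (2 : ℤ) ^ c * (2 * (N + 1) * (2 * (C : ℤ))) = K * (2 * (C : ℤ)) := by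
        rw [hK]; ring
      rw [e1, e2] at h''
      linarith
    · rw [if_neg hi0, add_zero]
      by_cases hbad : 5 * c + 6 * p < a i
      · have b1 := hB N c k p (a i) (s i) (k - s i + 1) hp hNp hN hk1 hk2 hbad hai hsi (Or.inl rfl)
        have b2 := hB N c k p (a i) (s i) (k - s i - 1) hp hNp hN hk1 hk2 hbad hai hsi (Or.inr rfl)
        have b1' : K * ((N - a i).choose (k - s i + 1) : ℤ) ≤ C := by
          rw [hK]; exact_mod_cast b1
        have b2' : K * ((N - a i).choose (k - s i - 1) : ℤ) ≤ C := by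
          rw [hK]; exact_mod_cast b2
        have b3 : 0 ≤ K * (2 * ((N - a i).choose (k - s i) : ℤ)) := by positivity
        linarith
      · push Not at hbad
        have hD : (((N - a i : ℕ) : ℤ) - 2 * ((k - s i : ℕ) : ℤ)) ^ 2 ≤ ((N - a i : ℕ) : ℤ) + 2 := by
          rw [Nat.cast_sub hai, Nat.cast_sub (by omega : s i ≤ k)]
          have q1 : ((N : ℤ) - 2 * k) ≤ c + 3 * p + 1 := by
            have : (N : ℤ) ≤ 2 * k + c + 3 * p + 1 := by exact_mod_cast hk1
            linarith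
          have q2 : -(2 * (c : ℤ)) ≤ ((N : ℤ) - 2 * k) := by
            have : (2 * k : ℤ) ≤ N + 2 * c := by exact_mod_cast hk2
            linarith
          have q3 : ((9 * c + 12 * p : ℤ)) ^ 2 ≤ N := by exact_mod_cast hN
          have hp' : (4 : ℤ) ≤ p := by exact_mod_cast hp
          have hc' : (0 : ℤ) ≤ c := by positivity
          have hs' : (s i : ℤ) ≤ c := by exact_mod_cast hsi
          have hs0 : (0 : ℤ) ≤ s i := by positivity
          have ha' : (a i : ℤ) ≤ 5 * c + 6 * p := by exact_mod_cast hbad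
          have ha0 : (0 : ℤ) ≤ a i := by positivity
          have q4 : ((N : ℤ) - a i - 2 * (k - s i)) ^ 2 ≤ (8 * c + 9 * p + 1) ^ 2 := by
            apply sq_le_sq'
            · linarith
            · linarith
          nlinarith [mul_nonneg hc' (by linarith : (0 : ℤ) ≤ p), mul_nonneg hc' hc']
        have b1 := h3 (N - a i) (k - s i) hD
        rw [if_pos (by omega)] at b1
        have b1' : ((N - a i).choose (k - s i + 1) : ℤ) + ((N - a i).choose (k - s i - 1) : ℤ) ≤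
            2 * ((N - a i).choose (k - s i) : ℤ) := by exact_mod_cast b1
        have b2 := mul_le_mul_of_nonneg_left b1' hK0.le
        have hC0 : (0 : ℤ) ≤ C := by positivity
        linarith
  have hsum := Finset.sum_le_sum hmain
  rw [← Finset.mul_sum, Finset.sum_add_distrib, Finset.sum_add_distrib, ← Finset.mul_sum,
    ← Finset.mul_sum, Finset.sum_add_distrib, Finset.sum_const, nsmul_eq_mul,
    Finset.sum_ite_eq' F i0, if_pos hF.h0] at hsum
  have hfin : (F.card : ℤ) * (2 * (C : ℤ)) + -(4 * (2 : ℤ) ^ c * (C : ℤ)) ≤ 0 := by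
    have h1 : (F.card : ℤ) ≤ 2 ^ c := by exact_mod_cast hcard
    have hC0 : (0 : ℤ) ≤ C := by positivity
    have h2 : (0 : ℤ) < 2 ^ c := by positivity
    nlinarith [mul_le_mul_of_nonneg_right h1 hC0, mul_nonneg h2.le hC0]
  have hres : K * ((∑ i ∈ F, (ch (N - a i) (k + 1) (s i) : ℤ)) +
      ∑ i ∈ F, (ch (N - a i) (k - 1) (s i) : ℤ)) ≤
      K * (2 * ∑ i ∈ F, (ch (N - a i) k (s i) : ℤ)) := by linarith
  have hres2 := le_of_mul_le_mul_left hres hK0
  unfold sumch
  exact_mod_cast hres2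

end H37.IS
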